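import Pool.Agent.Run7.h670.MY.StmS

/-!
# The piece D_SLAT: the Slater determinant of two orbitals
-/

set_option autoImplicit false

open MeasureTheory Set
open scoped ContDiff ComplexConjugate

namespace Run7.h442.MY

open Pool.Agent.Run7.h670.MY

variable {d : ℕ}

/-- products of square integrable functions are square integrable on the product -/
theorem memLp_mul {f g : V d → ℂ} (hf : MemLp f 2) (hg : MemLp g 2) :
    MemLp (fun z : V d × V d => f z.1 * g z.2) 2 := by
  have hm : AEStronglyMeasurable (fun z : V d × V d => f z.1 * g z.2) volume :=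
    (hf.1.comp_fst (ν := (volume : Measure (V d)))).mul (hg.1.comp_snd (μ := (volume : Measure (V d))))
  rw [memLp_two_iff_integrable_sq_norm hm]
  have h1 : Integrable (fun x => ‖f x‖ ^ 2) := (memLp_two_iff_integrable_sq_norm hf.1).1 hf
  have h2 : Integrable (fun x => ‖g x‖ ^ 2) := (memLp_two_iff_integrable_sq_norm hg.1).1 hg
  have h3 := h1.mul_prod h2
  refine h3.congr (Filter.Eventually.of_forall fun z => ?_)
  simp only [norm_mul, mul_pow]

/-- products of two square integrable functions are integrable -/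
theorem int_star {f g : V d → ℂ} (hf : MemLp f 2) (hg : MemLp g 2) :
    Integrable (fun x => star (f x) * g x) := by
  have := MemLp.integrable_mul (p := 2) (q := 2) hf.star hg
  exact this

theorem int_sq {f : V d → ℂ} (hf : MemLp f 2) : Integrable (fun x => ‖f x‖ ^ 2) :=
  (memLp_two_iff_integrable_sq_norm hf.1).1 hf

/-- expansion of the square -/
theorem expand (u v : ℂ) : ‖u - v‖ ^ 2 = ‖u‖ ^ 2 + ‖v‖ ^ 2 - 2 * (star u * v).re := by
  rw [← Complex.normSq_eq_norm_sq, ← Complex.normSq_eq_norm_sq, ← Complex.normSq_eq_norm_sq,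
    Complex.normSq_sub]
  congr 2
  simp only [Complex.mul_re, Complex.star_def, Complex.conj_re, Complex.conj_im]
  ring

/-- one variable -/
theorem one {b e : V d → ℂ} (hb : MemLp b 2) (he : MemLp e 2) (α β : ℂ) :
    ∫ y, ‖α * b y - β * e y‖ ^ 2 = ‖α‖ ^ 2 * (∫ y, ‖b y‖ ^ 2) + ‖β‖ ^ 2 * (∫ y, ‖e y‖ ^ 2)
      - 2 * (star α * β * ∫ y, star (b y) * e y).re := by
  have h1 : ∀ y, ‖α * b y - β * e y‖ ^ 2 = ‖α‖ ^ 2 * ‖b y‖ ^ 2 + ‖β‖ ^ 2 * ‖e y‖ ^ 2
      - 2 * (star α * β * (star (b y) * e y)).re := by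
    intro y
    rw [expand, norm_mul, norm_mul, mul_pow, mul_pow]
    congr 3
    rw [star_mul']
    ring
  have hi := (int_star hb he).const_mul (star α * β)
  calc ∫ y, ‖α * b y - β * e y‖ ^ 2
      = ∫ y, (‖α‖ ^ 2 * ‖b y‖ ^ 2 + ‖β‖ ^ 2 * ‖e y‖ ^ 2
        - 2 * (star α * β * (star (b y) * e y)).re) := integral_congr_ae
          (Filter.Eventually.of_forall h1)
    _ = ‖α‖ ^ 2 * (∫ y, ‖b y‖ ^ 2) + ‖β‖ ^ 2 * (∫ y, ‖e y‖ ^ 2)
      - 2 * (star α * β * ∫ y, star (b y) * e y).re := by
        rw [integral_sub, integral_add, integral_const_mul, integral_const_mul, integral_const_mul]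
        · congr 2
          rw [← integral_const_mul]
          exact integral_re hi
        · exact (int_sq hb).const_mul _
        · exact (int_sq he).const_mul _
        · exact ((int_sq hb).const_mul _).add ((int_sq he).const_mul _)
        · exact (hi.re).const_mul 2

/-- two variables -/
theorem two {a b c e : V d → ℂ} (ha : MemLp a 2) (hb : MemLp b 2) (hc : MemLp c 2)
    (he : MemLp e 2) :
    ∫ z : V d × V d, ‖a z.1 * b z.2 - c z.1 * e z.2‖ ^ 2 =
      (∫ y, ‖a y‖ ^ 2) * (∫ y, ‖b y‖ ^ 2) + (∫ y, ‖c y‖ ^ 2) * (∫ y, ‖e y‖ ^ 2)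
      - 2 * ((∫ y, star (a y) * c y) * ∫ y, star (b y) * e y).re := by
  have hL : MemLp (fun z : V d × V d => a z.1 * b z.2 - c z.1 * e z.2) 2 :=
    (memLp_mul ha hb).sub (memLp_mul hc he)
  have hI := (memLp_two_iff_integrable_sq_norm hL.1).1 hL
  have hi := (int_star ha hc).mul_const (∫ y, star (b y) * e y)
  rw [Measure.volume_eq_prod, integral_prod _ hI]
  simp only [one hb he]
  rw [integral_sub, integral_add, integral_mul_const, integral_mul_const, integral_const_mul]
  · congr 2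
    rw [← integral_mul_const]
    exact integral_re hi
  · exact (int_sq ha).mul_const _
  · exact (int_sq hc).mul_const _
  · exact ((int_sq ha).mul_const _).add ((int_sq hc).mul_const _)
  · exact (hi.re).const_mul 2

/-- a continuous function with compact support is square integrable on the product -/
theorem cs_memLp {φ : V d × V d → ℝ} (h1 : Continuous φ) (h2 : HasCompactSupport φ) :
    MemLp (fun z => (φ z : ℂ)) 2 := by
  have : MemLp (fun z => Complex.ofRealCLM (φ z)) 2 volume :=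
    Complex.ofRealCLM.comp_memLp' (h1.memLp_of_hasCompactSupport h2)
  exact this

theorem cs_fderiv {η : V d × V d → ℝ} (h1 : ContDiff ℝ ∞ η) (h2 : HasCompactSupport η)
    (v : V d × V d) : Continuous (fun z => fderiv ℝ η z v) ∧
      HasCompactSupport (fun z => fderiv ℝ η z v) := by
  refine ⟨(h1.continuous_fderiv (by simp)).clm_apply continuous_const, ?_⟩
  exact h2.fderiv_apply ℝ v

/-- weak derivative with respect to the first variable -/
theorem weakx {f h : V d → ℂ} {g : Fin d → V d → ℂ} (hf : IsSobolev f g) (hh : MemLp h 2)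
    (η : V d × V d → ℝ) (h1 : ContDiff ℝ ∞ η) (h2 : HasCompactSupport η) (i : Fin d) :
    ∫ z : V d × V d, f z.1 * h z.2 * (fderiv ℝ η z (EuclideanSpace.single i 1, 0) : ℂ) =
      -∫ z : V d × V d, g i z.1 * h z.2 * (η z : ℂ) := by
  obtain ⟨hc1, hc2⟩ := cs_fderiv h1 h2 (EuclideanSpace.single i 1, 0)
  have hI1 : Integrable (fun z : V d × V d => f z.1 * h z.2 *
      (fderiv ℝ η z (EuclideanSpace.single i 1, 0) : ℂ)) :=
    MemLp.integrable_mul (p := 2) (q := 2) (memLp_mul hf.memLp hh) (cs_memLp hc1 hc2)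
  have hI2 : Integrable (fun z : V d × V d => g i z.1 * h z.2 * (η z : ℂ)) :=
    MemLp.integrable_mul (p := 2) (q := 2) (memLp_mul (hf.memLp_grad i) hh)
      (cs_memLp h1.continuous h2)
  rw [Measure.volume_eq_prod] at hI1 hI2 ⊢
  rw [integral_prod_symm _ hI1, integral_prod_symm _ hI2, ← integral_neg]
  refine integral_congr_ae (Filter.Eventually.of_forall fun y => ?_)
  have hs1 : ContDiff ℝ ∞ (fun x : V d => η (x, y)) :=
    h1.comp (contDiff_id.prodMk contDiff_const)
  have hs2 : HasCompactSupport (fun x : V d => η (x, y)) := by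
    refine HasCompactSupport.of_support_subset_isCompact (h2.isCompact.image continuous_fst) ?_
    intro x hx
    exact ⟨(x, y), subset_tsupport _ hx, rfl⟩
  have hd : ∀ x, pd i (fun x : V d => η (x, y)) x =
      fderiv ℝ η (x, y) (EuclideanSpace.single i 1, 0) := by
    intro x
    have hη : HasFDerivAt η (fderiv ℝ η (x, y)) (x, y) :=
      ((h1.differentiable (by simp)) (x, y)).hasFDerivAt
    have hp : HasFDerivAt (fun x : V d => (x, y))
        ((ContinuousLinearMap.id ℝ (V d)).prod (0 : V d →L[ℝ] V d)) x :=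
      (hasFDerivAt_id x).prodMk (hasFDerivAt_const y x)
    have := (hη.comp x hp).fderiv
    unfold pd
    have e : (fun x : V d => η (x, y)) = η ∘ (fun x : V d => (x, y)) := rfl
    rw [e, this]
    simp
  have hw := hf.weak _ hs1 hs2 i
  simp only [hd] at hw
  have e1 : (fun x => f x * h y * (fderiv ℝ η (x, y) (EuclideanSpace.single i 1, 0) : ℂ)) =
      fun x => h y * (f x * (fderiv ℝ η (x, y) (EuclideanSpace.single i 1, 0) : ℂ)) := by
    funext x; ring
  have e2 : (fun x => g i x * h y * (η (x, y) : ℂ)) =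
      fun x => h y * (g i x * (η (x, y) : ℂ)) := by
    funext x; ring
  show ∫ x, f x * h y * (fderiv ℝ η (x, y) (EuclideanSpace.single i 1, 0) : ℂ) =
    -∫ x, g i x * h y * (η (x, y) : ℂ)
  rw [e1, e2, integral_const_mul, integral_const_mul, hw]
  ring

/-- weak derivative with respect to the second variable -/
theorem weaky {f h : V d → ℂ} {g : Fin d → V d → ℂ} (hf : IsSobolev f g) (hh : MemLp h 2)
    (η : V d × V d → ℝ) (h1 : ContDiff ℝ ∞ η) (h2 : HasCompactSupport η) (i : Fin d) :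
    ∫ z : V d × V d, h z.1 * f z.2 * (fderiv ℝ η z (0, EuclideanSpace.single i 1) : ℂ) =
      -∫ z : V d × V d, h z.1 * g i z.2 * (η z : ℂ) := by
  obtain ⟨hc1, hc2⟩ := cs_fderiv h1 h2 (0, EuclideanSpace.single i 1)
  have hI1 : Integrable (fun z : V d × V d => h z.1 * f z.2 *
      (fderiv ℝ η z (0, EuclideanSpace.single i 1) : ℂ)) :=
    MemLp.integrable_mul (p := 2) (q := 2) (memLp_mul hh hf.memLp) (cs_memLp hc1 hc2)
  have hI2 : Integrable (fun z : V d × V d => h z.1 * g i z.2 * (η z : ℂ)) :=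
    MemLp.integrable_mul (p := 2) (q := 2) (memLp_mul hh (hf.memLp_grad i))
      (cs_memLp h1.continuous h2)
  rw [Measure.volume_eq_prod] at hI1 hI2 ⊢
  rw [integral_prod _ hI1, integral_prod _ hI2, ← integral_neg]
  refine integral_congr_ae (Filter.Eventually.of_forall fun x => ?_)
  have hs1 : ContDiff ℝ ∞ (fun y : V d => η (x, y)) :=
    h1.comp (contDiff_const.prodMk contDiff_id)
  have hs2 : HasCompactSupport (fun y : V d => η (x, y)) := by
    refine HasCompactSupport.of_support_subset_isCompact (h2.isCompact.image continuous_snd) ?_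
    intro y hy
    exact ⟨(x, y), subset_tsupport _ hy, rfl⟩
  have hd : ∀ y, pd i (fun y : V d => η (x, y)) y =
      fderiv ℝ η (x, y) (0, EuclideanSpace.single i 1) := by
    intro y
    have hη : HasFDerivAt η (fderiv ℝ η (x, y)) (x, y) :=
      ((h1.differentiable (by simp)) (x, y)).hasFDerivAt
    have hp : HasFDerivAt (fun y : V d => (x, y))
        ((0 : V d →L[ℝ] V d).prod (ContinuousLinearMap.id ℝ (V d))) y :=
      (hasFDerivAt_const x y).prodMk (hasFDerivAt_id y)
    have := (hη.comp y hp).fderiv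
    unfold pd
    have e : (fun y : V d => η (x, y)) = η ∘ (fun y : V d => (x, y)) := rfl
    rw [e, this]
    simp
  have hw := hf.weak _ hs1 hs2 i
  simp only [hd] at hw
  have e1 : (fun y => h x * f y * (fderiv ℝ η (x, y) (0, EuclideanSpace.single i 1) : ℂ)) =
      fun y => h x * (f y * (fderiv ℝ η (x, y) (0, EuclideanSpace.single i 1) : ℂ)) := by
    funext y; ring
  have e2 : (fun y => h x * g i y * (η (x, y) : ℂ)) =
      fun y => h x * (g i y * (η (x, y) : ℂ)) := by
    funext y; ring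
  show ∫ y, h x * f y * (fderiv ℝ η (x, y) (0, EuclideanSpace.single i 1) : ℂ) =
    -∫ y, h x * g i y * (η (x, y) : ℂ)
  rw [e1, e2, integral_const_mul, integral_const_mul, hw]
  ring

theorem t_D_SLAT : D_SLAT := by
  intro d φ₁ φ₂ γ₁ γ₂ H1 H2 n1 n2 n12
  obtain ⟨c, hc⟩ : ∃ c : ℝ, c ^ 2 = 1 / 2 ∧ 0 ≤ c :=
    ⟨Real.sqrt (1 / 2), Real.sq_sqrt (by norm_num), Real.sqrt_nonneg _⟩
  have hc2 : ‖(c : ℂ)‖ ^ 2 = 1 / 2 := by
    rw [Complex.norm_real, Real.norm_eq_abs, sq_abs, hc.1]
  -- norms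
  have N : ∀ f : V d → ℂ, MemLp f 2 → ∫ x, star (f x) * f x = 1 → ∫ x, ‖f x‖ ^ 2 = 1 := by
    intro f hf h
    have e : ∀ x, star (f x) * f x = ((‖f x‖ ^ 2 : ℝ) : ℂ) := by
      intro x
      rw [Complex.star_def, Complex.conj_mul']
      push_cast; rfl
    simp only [e] at h
    rw [integral_complex_ofReal] at h
    exact_mod_cast h
  have m1 := N φ₁ H1.memLp n1
  have m2 := N φ₂ H2.memLp n2
  have n21 : ∫ x, star (φ₂ x) * φ₁ x = 0 := by
    have e : ∀ x, star (φ₂ x) * φ₁ x = star (star (φ₁ x) * φ₂ x) := by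
      intro x
      rw [star_mul', star_star]
      ring
    simp only [e]
    have := integral_conj (μ := volume) (f := fun x => star (φ₁ x) * φ₂ x)
    rw [n12, map_zero] at this
    exact this
  refine ⟨fun x y => c * (φ₁ x * φ₂ y - φ₂ x * φ₁ y),
    fun i x y => c * (γ₁ i x * φ₂ y - γ₂ i x * φ₁ y),
    fun i x y => c * (φ₁ x * γ₂ i y - φ₂ x * γ₁ i y), ?_, ?_⟩
  · constructor
    · intro x y; ring
    · exact ((memLp_mul H1.memLp H2.memLp).sub (memLp_mul H2.memLp H1.memLp)).const_mul _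
    · intro i
      exact ((memLp_mul (H1.memLp_grad i) H2.memLp).sub
        (memLp_mul (H2.memLp_grad i) H1.memLp)).const_mul _
    · intro i
      exact ((memLp_mul H1.memLp (H2.memLp_grad i)).sub
        (memLp_mul H2.memLp (H1.memLp_grad i))).const_mul _
    · intro η h1 h2 i
      obtain ⟨hc1, hc2⟩ := cs_fderiv h1 h2 (EuclideanSpace.single i 1, 0)
      have hI : ∀ f g : V d → ℂ, MemLp f 2 → MemLp g 2 → Integrable (fun z : V d × V d =>
          f z.1 * g z.2 * (fderiv ℝ η z (EuclideanSpace.single i 1, 0) : ℂ)) := fun f g hf hg =>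
        MemLp.integrable_mul (p := 2) (q := 2) (memLp_mul hf hg) (cs_memLp hc1 hc2)
      have hJ : ∀ f g : V d → ℂ, MemLp f 2 → MemLp g 2 → Integrable (fun z : V d × V d =>
          f z.1 * g z.2 * (η z : ℂ)) := fun f g hf hg =>
        MemLp.integrable_mul (p := 2) (q := 2) (memLp_mul hf hg) (cs_memLp h1.continuous h2)
      have e1 : ∀ z : V d × V d, c * (φ₁ z.1 * φ₂ z.2 - φ₂ z.1 * φ₁ z.2) *
          (fderiv ℝ η z (EuclideanSpace.single i 1, 0) : ℂ) =
          c * (φ₁ z.1 * φ₂ z.2 * (fderiv ℝ η z (EuclideanSpace.single i 1, 0) : ℂ) -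
            φ₂ z.1 * φ₁ z.2 * (fderiv ℝ η z (EuclideanSpace.single i 1, 0) : ℂ)) := by
        intro z; ring
      have e2 : ∀ z : V d × V d, c * (γ₁ i z.1 * φ₂ z.2 - γ₂ i z.1 * φ₁ z.2) * (η z : ℂ) =
          c * (γ₁ i z.1 * φ₂ z.2 * (η z : ℂ) - γ₂ i z.1 * φ₁ z.2 * (η z : ℂ)) := by
        intro z; ring
      simp only [e1, e2]
      rw [integral_const_mul, integral_const_mul,
        integral_sub (hI _ _ H1.memLp H2.memLp) (hI _ _ H2.memLp H1.memLp),
        integral_sub (hJ _ _ (H1.memLp_grad i) H2.memLp) (hJ _ _ (H2.memLp_grad i) H1.memLp),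
        weakx H1 H2.memLp η h1 h2 i, weakx H2 H1.memLp η h1 h2 i]
      ring
    · intro η h1 h2 i
      obtain ⟨hc1, hc2⟩ := cs_fderiv h1 h2 (0, EuclideanSpace.single i 1)
      have hI : ∀ f g : V d → ℂ, MemLp f 2 → MemLp g 2 → Integrable (fun z : V d × V d =>
          f z.1 * g z.2 * (fderiv ℝ η z (0, EuclideanSpace.single i 1) : ℂ)) := fun f g hf hg =>
        MemLp.integrable_mul (p := 2) (q := 2) (memLp_mul hf hg) (cs_memLp hc1 hc2)
      have hJ : ∀ f g : V d → ℂ, MemLp f 2 → MemLp g 2 → Integrable (fun z : V d × V d =>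
          f z.1 * g z.2 * (η z : ℂ)) := fun f g hf hg =>
        MemLp.integrable_mul (p := 2) (q := 2) (memLp_mul hf hg) (cs_memLp h1.continuous h2)
      have e1 : ∀ z : V d × V d, c * (φ₁ z.1 * φ₂ z.2 - φ₂ z.1 * φ₁ z.2) *
          (fderiv ℝ η z (0, EuclideanSpace.single i 1) : ℂ) =
          c * (φ₁ z.1 * φ₂ z.2 * (fderiv ℝ η z (0, EuclideanSpace.single i 1) : ℂ) -
            φ₂ z.1 * φ₁ z.2 * (fderiv ℝ η z (0, EuclideanSpace.single i 1) : ℂ)) := by
        intro z; ring
      have e2 : ∀ z : V d × V d, c * (φ₁ z.1 * γ₂ i z.2 - φ₂ z.1 * γ₁ i z.2) * (η z : ℂ) =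
          c * (φ₁ z.1 * γ₂ i z.2 * (η z : ℂ) - φ₂ z.1 * γ₁ i z.2 * (η z : ℂ)) := by
        intro z; ring
      simp only [e1, e2]
      rw [integral_const_mul, integral_const_mul,
        integral_sub (hI _ _ H1.memLp H2.memLp) (hI _ _ H2.memLp H1.memLp),
        integral_sub (hJ _ _ H1.memLp (H2.memLp_grad i)) (hJ _ _ H2.memLp (H1.memLp_grad i)),
        weaky H2 H1.memLp η h1 h2 i, weaky H1 H2.memLp η h1 h2 i]
      ring
    · simp only [norm_mul, mul_pow, hc2]
      rw [integral_const_mul, two H1.memLp H2.memLp H2.memLp H1.memLp, m1, m2, n12]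
      simp
      norm_num
    · intro x
      simp only [norm_mul, mul_pow, hc2]
      rw [integral_const_mul, one H2.memLp H1.memLp, m1, m2, n21]
      simp
  · unfold kinetic2
    rw [← Finset.sum_add_distrib]
    refine Finset.sum_congr rfl fun i _ => ?_
    simp only [norm_mul, mul_pow, hc2]
    rw [integral_const_mul, integral_const_mul,
      two (H1.memLp_grad i) H2.memLp (H2.memLp_grad i) H1.memLp,
      two H1.memLp (H2.memLp_grad i) H2.memLp (H1.memLp_grad i), m1, m2, n21, n12]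
    simp
    ring

end Run7.h442.MY
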